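import Pool.Agent.Q204.NS.Pair

/-!
# Monads of ultrafilters need not be convex for divisibility
-/

namespace Pool.Agent.Results.MP_0a3202_lc.MonadNotConvex

open Q204.NS

/-- `X` is convex for the star-image of divisibility: whenever `x, y ∈ X`, `x` star-divides `z` and
`z` star-divides `y`, then `z ∈ X`. -/
def IsConvex {M : Type} [fullLang.Structure M] (X : Set M) : Prop :=
  ∀ x ∈ X, ∀ y ∈ X, ∀ z : M, starRel (fun a b => a ∣ b) x z → starRel (fun a b => a ∣ b) z y →
    z ∈ X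

/-- **Answer.** There are nonstandard extensions of `ℕ` in which every ultrafilter has a nonempty
monad.  In every such extension the monad of every nonprincipal ultrafilter that contains the set of
powers of two is not convex; such ultrafilters exist. -/
theorem result :
    (∃ (M : Type) (_ : fullLang.Structure M), IsExtension M ∧
      ∀ F : Ultrafilter ℕ, (monad M F).Nonempty) ∧
    (∃ F : Ultrafilter ℕ, (∀ n : ℕ, {n} ∉ F) ∧ {m | ∃ k, m = 2 ^ k} ∈ F) ∧
    ∀ (M : Type) [fullLang.Structure M], IsExtension M →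
      (∀ F : Ultrafilter ℕ, (monad M F).Nonempty) →
      ∀ F : Ultrafilter ℕ, (∀ n : ℕ, {n} ∉ F) → {m | ∃ k, m = 2 ^ k} ∈ F →
        ¬ IsConvex (monad M F) := by
  refine ⟨⟨Big, inferInstance, big_ext, big_monad⟩, ?_, ?_⟩
  · have hinf : {m : ℕ | ∃ k, m = 2 ^ k}.Infinite := by
      have h1 : (Set.range fun k : ℕ => 2 ^ k).Infinite :=
        Set.infinite_range_of_injective (Nat.pow_right_injective le_rfl)
      refine h1.mono ?_
      rintro _ ⟨k, rfl⟩
      exact ⟨k, rfl⟩
    have hne : (Filter.cofinite ⊓ Filter.principal {m : ℕ | ∃ k, m = 2 ^ k}).NeBot := by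
      rw [Filter.cofinite_inf_principal_neBot_iff]
      exact hinf
    obtain ⟨F, hF⟩ := Ultrafilter.exists_le (Filter.cofinite ⊓
      Filter.principal {m : ℕ | ∃ k, m = 2 ^ k})
    refine ⟨F, fun n hn => ?_, (hF.trans inf_le_right) (Filter.mem_principal_self _)⟩
    have h1 : ({n} : Set ℕ)ᶜ ∈ F :=
      (hF.trans inf_le_left) (Set.finite_singleton n).compl_mem_cofinite
    exact (Ultrafilter.compl_mem_iff_notMem.1 h1) hn
  intro M _ hM hmon F hF2 hF1 hconv
  obtain ⟨w, hw⟩ := hmon (sq F)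
  let f : ℕ → ℕ := fun n => n.unpair.1
  let g : ℕ → ℕ := fun n => n.unpair.2
  let h : ℕ → ℕ := fun n => 2 * n.unpair.1
  have hx : starFn f w ∈ monad M F := by
    have := fn_mem_monad hM hw f
    rwa [show (sq F).map f = F from sq_fst F] at this
  have hy : starFn g w ∈ monad M F := by
    have := fn_mem_monad hM hw g
    rwa [show (sq F).map g = F from sq_snd F] at this
  have hxz : starRel (fun a b => a ∣ b) (starFn f w) (starFn h w) := by
    rw [starRel_fn hM, mem_star_iff hM hw]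
    exact Filter.univ_mem' fun n => Dvd.intro_left 2 rfl
  have hzy : starRel (fun a b => a ∣ b) (starFn h w) (starFn g w) := by
    rw [starRel_fn hM, mem_star_iff hM hw]
    filter_upwards [sq_lt F hF2, sq_fst_mem F hF1, sq_snd_mem F hF1] with n h1 h2 h3
    obtain ⟨a, ha⟩ := h2
    obtain ⟨b, hb⟩ := h3
    have h1' : n.unpair.1 < n.unpair.2 := h1
    show 2 * n.unpair.1 ∣ n.unpair.2
    rw [ha, hb] at *
    have hab : a < b := (Nat.pow_lt_pow_iff_right (by norm_num)).1 h1'
    rw [← pow_succ']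
    exact pow_dvd_pow 2 hab
  have hz := hconv _ hx _ hy _ hxz hzy
  -- parity of the exponent separates `F` from its image under doubling
  let E : Set ℕ := {m | ∃ k, m = 2 ^ (2 * k)}
  have hE : ∀ a : ℕ, (2 * 2 ^ a ∈ E ↔ ¬ 2 ^ a ∈ E) := by
    intro a
    have hi : ∀ a b : ℕ, 2 ^ a = 2 ^ b ↔ a = b := fun a b =>
      (Nat.pow_right_injective (le_refl 2)).eq_iff
    show (∃ k, 2 * 2 ^ a = 2 ^ (2 * k)) ↔ ¬ ∃ k, 2 ^ a = 2 ^ (2 * k)
    simp only [← pow_succ', hi]
    constructor
    · rintro ⟨k, hk⟩ ⟨j, hj⟩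
      omega
    · intro hn
      rcases Nat.even_or_odd' a with ⟨k, hk | hk⟩
      · exact absurd ⟨k, hk⟩ hn
      · exact ⟨k + 1, by omega⟩
  have hz1 : starFn h w ∈ star M E ↔ E ∈ F := mem_star_iff hM hz E
  rw [mem_star_fn hM, mem_star_iff hM hw] at hz1
  by_cases hEF : E ∈ F
  · obtain ⟨n, ⟨h1, h2⟩, h3⟩ := Ultrafilter.nonempty_of_mem
      (Filter.inter_mem (Filter.inter_mem (hz1.2 hEF) (sq_fst_mem F hEF)) (sq_fst_mem F hF1))
    obtain ⟨a, ha⟩ := h3
    have h1' : 2 * n.unpair.1 ∈ E := h1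
    have h2' : n.unpair.1 ∈ E := h2
    rw [ha] at h1' h2'
    exact (hE a).1 h1' h2'
  · have hEc := Ultrafilter.compl_mem_iff_notMem.2 hEF
    have h0 : h ⁻¹' E ∉ sq F := fun hc => hEF (hz1.1 hc)
    apply h0
    filter_upwards [sq_fst_mem F hEc, sq_fst_mem F hF1] with n h2 h3
    obtain ⟨a, ha⟩ := h3
    have h2' : n.unpair.1 ∉ E := h2
    show 2 * n.unpair.1 ∈ E
    rw [ha] at h2' ⊢
    exact (hE a).2 h2'

end Pool.Agent.Results.MP_0a3202_lc.MonadNotConvex
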